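import Pool.Agent.TH442.NF.HH
import Pool.Agent.W609.T.Five
import Pool.Agent.TH745.MN.Calc
import Pool.Agent.TH167.TT.Conv9

set_option autoImplicit false

/-!
# The Harbourne-Hirschowitz conjecture for all classes with a decided standard form

A standard class `(d; w)` at `n ≥ 4` points is called decided in each of the following cases:
* the calculus of blocks, clusters and doubling (`Pool.Agent.TH745.MN.Dec`) decides it,
* at most nine of the `w i` are larger than `2`,
* in decreasing order all but the first five of the `w i` are at most some `m ≥ 1`, and the number of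
  the coefficients left by the first three points, or the number of the conditions at the others, is at
  least `2 ^ 17 (4 m ^ 2 + 8 m + 5) ^ 4`.

If finitely many reflections in classes `H - E_i - E_j - E_k` carry `(d; w)` to a decided standard
class, then for general points the linear system `(d; w)` has the expected dimension.
For every `(d; w)` and general points: the linear system `(d; w)` is special if and only if it is
`(-1)`-special, unless its reduced form is a special standard class which is not decided.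
-/

namespace Pool.Agent.Results.MP_6b2d39_ag.DecidedStandardForms

open MvPolynomial Pool.Agent.TH167 Pool.Agent.TH167.SHDefs

/-- For general points the linear system has the expected dimension. -/
def Expected {n : ℕ} (d : ℕ) (w : Fin n → ℕ) : Prop :=
  ∃ F : MvPolynomial (Fin n × Fin 2) ℂ, F ≠ 0 ∧ ∀ P : Fin n → Fin 2 → ℂ,
    MvPolynomial.eval (fun ij : Fin n × Fin 2 => P ij.1 ij.2) F ≠ 0 →
      dimL P d w = max (virtdim d w) (-1)

/-- The reflection of the class `a = (d; w)`, `d H - ∑ w l E l`, in the class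
`H - E (i 0) - E (i 1) - E (i 2)`: with `δ = d - w (i 0) - w (i 1) - w (i 2)`, the numbers
`d`, `w (i 0)`, `w (i 1)`, `w (i 2)` are increased by `δ`. -/
def reflect {n : ℕ} (i : Fin 3 → Fin n) (a : ℤ × (Fin n → ℤ)) : ℤ × (Fin n → ℤ) :=
  (a.1 + (a.1 - a.2 (i 0) - a.2 (i 1) - a.2 (i 2)),
    fun l => a.2 l + if l = i 0 ∨ l = i 1 ∨ l = i 2 then a.1 - a.2 (i 0) - a.2 (i 1) - a.2 (i 2)
      else 0)

/-- Finitely many reflections carry `(d; w)` to `(d'; w')`. -/
def Carries {n : ℕ} (d : ℕ) (w : Fin n → ℕ) (d' : ℕ) (w' : Fin n → ℕ) : Prop :=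
  Relation.ReflTransGen
    (fun a b : ℤ × (Fin n → ℤ) => ∃ i : Fin 3 → Fin n, Function.Injective i ∧ b = reflect i a)
    ((d : ℤ), fun l => (w l : ℤ)) ((d' : ℤ), fun l => (w' l : ℤ))

/-- The class is standard: the degree is at least the sum of any three multiplicities. -/
def Standard {n : ℕ} (d : ℕ) (w : Fin n → ℕ) : Prop :=
  ∀ i j k : Fin n, i ≠ j → i ≠ k → j ≠ k → w i + w j + w k ≤ d

/-- In decreasing order (`σ`) all but the first five multiplicities are at most `m`, and there are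
many coefficients or many conditions. -/
def FiveLarge {r : ℕ} (d : ℕ) (w : Fin (r + 4) → ℕ) : Prop :=
  ∃ (m : ℕ) (σ : Equiv.Perm (Fin (r + 4))), 0 < m ∧ Antitone (w ∘ σ) ∧
    (∀ i : Fin (r + 4), 5 ≤ (i : ℕ) → w (σ i) ≤ m) ∧
    (131072 * (4 * m ^ 2 + 8 * m + 5) ^ 4 +
        (w (σ 0) * (w (σ 0) + 1) + w (σ 1) * (w (σ 1) + 1) + w (σ 2) * (w (σ 2) + 1)) ≤
          (d + 1) * (d + 2) ∨
      131072 * (4 * m ^ 2 + 8 * m + 5) ^ 4 ≤
        ∑ i : Fin (r + 4), if 3 ≤ (i : ℕ) then (w (σ i) + 1).choose 2 else 0)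

/-- The decided standard classes. -/
def Decided {r : ℕ} (d : ℕ) (w : Fin (r + 4) → ℕ) : Prop :=
  (∃ s, Pool.Agent.TH745.MN.Dec s (Finset.univ.val.map w) d) ∨
    (Finset.univ.filter fun i => 2 < w i).card ≤ 9 ∨ FiveLarge d w

theorem of_open {n : ℕ} {d : ℕ} {w : Fin n → ℕ}
    (h : ∀ {K : Type} [Field K] [CharZero K] {P : Fin n → Fin 2 → K},
      AlgebraicIndependent ℚ (fun ij : Fin n × Fin 2 => P ij.1 ij.2) →
        Pool.Agent.H932R3.ExpDim K w P d) : Expected d w := by
  obtain ⟨F, hF, hF'⟩ := Pool.Agent.TH442.NF.to_open h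
  refine ⟨F.map (algebraMap ℚ ℂ), Pool.Agent.H932R3.map_ne_zero_of hF, fun P hP => ?_⟩
  rw [MvPolynomial.eval_map] at hP
  have h1 : Module.finrank ℂ ↥(sys P d w) =
      Nat.choose (d + 2) 2 - ∑ i, Nat.choose (w i + 1) 2 := hF' (L := ℂ) P hP
  have h2 : ∑ i, ((w i + 1).choose 2 : ℤ) = ((∑ i, Nat.choose (w i + 1) 2 : ℕ) : ℤ) := by
    push_cast
    rfl
  unfold dimL virtdim
  rw [h1, h2]
  omega

theorem expDim_of_not_special {K : Type} [Field K] {n : ℕ} {w : Fin n → ℕ} {P : Fin n → Fin 2 → K}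
    {d : ℕ} (h : ¬ SHDefs.Special P d w) : Pool.Agent.H932R3.ExpDim K w P d := by
  rw [SH.special_conv] at h
  unfold SH.Special at h
  rw [not_not] at h
  rw [Pool.Agent.TH442.NF.expDim_iff]
  exact h

theorem not_mspecial {K : Type} [Field K] {r : ℕ} {P : Fin (r + 4) → Fin 2 → K} {d : ℕ}
    {w : Fin (r + 4) → ℕ} (hs : Standard d w) : ¬ SHDefs.MinusOneSpecial P d w := by
  rw [SH.mspecial_conv]
  rintro ⟨d', w', k, C, e, u, N, hD, -, a, ha⟩
  have h1 := hD.neg a
  have h2 := SH.red_nef (P := P) hs (hD.exc a)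
  have h3 := hD.pos a
  omega

theorem perm_expDim {K : Type} [Field K] {n : ℕ} {w : Fin n → ℕ} {P : Fin n → Fin 2 → K} {d : ℕ}
    (σ : Equiv.Perm (Fin n)) (h : Pool.Agent.H932R3.ExpDim K (w ∘ σ) (fun i => P (σ i)) d) :
    Pool.Agent.H932R3.ExpDim K w P d := by
  unfold Pool.Agent.H932R3.ExpDim at h ⊢
  have e1 : (⨅ i : Fin n, (Ideal.span
      ({MvPolynomial.X 0 - MvPolynomial.C (P (σ i) 0) * MvPolynomial.X 2,
        MvPolynomial.X 1 - MvPolynomial.C (P (σ i) 1) * MvPolynomial.X 2} :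
        Set (MvPolynomial (Fin 3) K))) ^ ((w ∘ σ) i)) =
      ⨅ i : Fin n, (Ideal.span
      ({MvPolynomial.X 0 - MvPolynomial.C (P i 0) * MvPolynomial.X 2,
        MvPolynomial.X 1 - MvPolynomial.C (P i 1) * MvPolynomial.X 2} :
        Set (MvPolynomial (Fin 3) K))) ^ (w i) :=
    σ.iInf_comp (g := fun i => (Ideal.span
      ({MvPolynomial.X 0 - MvPolynomial.C (P i 0) * MvPolynomial.X 2,
        MvPolynomial.X 1 - MvPolynomial.C (P i 1) * MvPolynomial.X 2} :
        Set (MvPolynomial (Fin 3) K))) ^ (w i))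
  have e2 : ∑ i, Nat.choose ((w ∘ σ) i + 1) 2 = ∑ i, Nat.choose (w i + 1) 2 :=
    Equiv.sum_comp σ (fun i => Nat.choose (w i + 1) 2)
  rw [e1, e2] at h
  exact h

theorem decided_exp {K : Type} [Field K] [CharZero K] {r : ℕ} {P : Fin (r + 4) → Fin 2 → K}
    (hP : AlgebraicIndependent ℚ (fun ij : Fin (r + 4) × Fin 2 => P ij.1 ij.2)) {d : ℕ}
    {w : Fin (r + 4) → ℕ} (hs : Standard d w) (h : Decided d w) :
    Pool.Agent.H932R3.ExpDim K w P d := by
  rcases h with h | h | ⟨m, σ, hm, hanti, h5, hc⟩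
  · obtain ⟨F, hF, hF'⟩ := Pool.Agent.TH745.MN.expDim_dec w
    exact hF' P (fun h0 => hF (hP.eq_zero_of_aeval_eq_zero F h0)) d h
  · refine expDim_of_not_special fun h1 => ?_
    exact not_mspecial hs ((TT.hh9_gen hP d w h).1 h1)
  · obtain ⟨F, hF, hF'⟩ := Pool.Agent.W609.T.big5 K hm hanti h5
    have hP' : AlgebraicIndependent ℚ
        (fun ij : Fin (r + 4) × Fin 2 => (fun i => P (σ i)) ij.1 ij.2) := by
      have h1 := hP.comp (fun ij : Fin (r + 4) × Fin 2 => (σ ij.1, ij.2)) (by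
        rintro ⟨a, b⟩ ⟨a', b'⟩ hab
        simp only [Prod.mk.injEq, EmbeddingLike.apply_eq_iff_eq] at hab
        exact Prod.ext hab.1 hab.2)
      exact h1
    refine perm_expDim σ (hF' (fun i => P (σ i))
      (fun h0 => hF (hP'.eq_zero_of_aeval_eq_zero F h0)) d ?_ hc)
    have ne01 : σ 0 ≠ σ 1 := fun h => by
      have := congrArg Fin.val (σ.injective h)
      simp at this
    have ne02 : σ 0 ≠ σ 2 := fun h => by
      have h2 := congrArg Fin.val (σ.injective h)
      have n2 : ((2 : Fin (r + 4)) : ℕ) = 2 := Nat.mod_eq_of_lt (show 2 < r + 4 by omega)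
      rw [n2] at h2
      simp at h2
    have ne12 : σ 1 ≠ σ 2 := fun h => by
      have h2 := congrArg Fin.val (σ.injective h)
      have n1 : ((1 : Fin (r + 4)) : ℕ) = 1 := Nat.mod_eq_of_lt (show 1 < r + 4 by omega)
      have n2 : ((2 : Fin (r + 4)) : ℕ) = 2 := Nat.mod_eq_of_lt (show 2 < r + 4 by omega)
      rw [n1, n2] at h2
      omega
    exact hs _ _ _ ne01 ne02 ne12

theorem result (r d : ℕ) (w : Fin (r + 4) → ℕ) :
    (∀ (d' : ℕ) (w' : Fin (r + 4) → ℕ), Carries d w d' w' → Standard d' w' → Decided d' w' →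
      Expected d w) ∧
    ∃ F : MvPolynomial (Fin (r + 4) × Fin 2) ℂ, F ≠ 0 ∧
      ∀ P : Fin (r + 4) → Fin 2 → ℂ,
        MvPolynomial.eval (fun ij : Fin (r + 4) × Fin 2 => P ij.1 ij.2) F ≠ 0 →
        (MinusOneSpecial P d w → Special P d w) ∧
        (Special P d w → MinusOneSpecial P d w ∨
          ∃ (d'' : ℕ) (w'' : Fin (r + 4) → ℕ) (k : ℕ) (G : Fin k → MvPolynomial (Fin 3) ℂ)
            (e : Fin k → ℕ) (u : Fin k → Fin (r + 4) → ℕ) (N : Fin k → ℕ) (d' : ℕ)
            (w' : Fin (r + 4) → ℕ),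
            Decomp P d w d'' w'' G e u N ∧
            Relation.ReflTransGen Quadratic (d'', w'') (d', w') ∧ Standard d' w' ∧
            Special P d' w' ∧ ¬ Decided d' w') :=
  ⟨fun _ _ hc hs hG => of_open fun hP => Pool.Agent.TH442.NF.up_enef hP hc
      (Pool.Agent.TH442.NF.enef_of_std (by omega) _ hs) (decided_exp hP hs hG),
    Pool.Agent.TH442.NF.hh_open (by omega) (Q := fun d' w' => Decided d' w')
      (fun hP _ _ hs hG => decided_exp hP hs hG) d w⟩

end Pool.Agent.Results.MP_6b2d39_ag.DecidedStandardForms
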