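import Mathlib
import Pool.Agent.Q310.FP.Fourth

set_option autoImplicit false

/-!
# The Harbourne-Hirschowitz conjecture: only finitely many classes for each fourth multiplicity

If finitely many reflections in classes `H - E_i - E_j - E_k` carry `(d; w)` to a standard class
without `Rem4`, then for general points the linear system `(d; w)` has the expected dimension. For
every `(d; w)` and general points: the linear system `(d; w)` is special if and only if it is
`(-1)`-special, unless its reduced form is a special standard class with `Rem4`.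

`Small4 d v`, for multiplicities `v 0 ≥ v 1 ≥ ⋯`, means: `v 3 > 0`; `v 2 < 2 (v 3) ^ 2 + 3 v 3 + 2`;
`v 2 < 4 m ^ 2 + 8 m + 5` for every `m ≥ 1` such that at most the first five multiplicities are
larger than `m`; `(d + 1) (d + 2) < 2 ^ 17 (v 3 + 1) ^ 4 + ∑_{i < 3} v i (v i + 1)`;
`∑_{i ≥ 3} (v i + 1).choose 2 < 2 ^ 17 (v 3 + 1) ^ 4`; and
`d + 1 + v 0 v 1 + v 0 v 2 + v 1 v 2 < 2 ^ 16 (v 3 + 1) ^ 4`. `Rem4 d w`: the multiplicities `w`, in
decreasing order, satisfy `Small4`. So for every value of the fourth multiplicity only finitely many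
classes satisfy `Rem4`, for all numbers of points together.
-/

namespace Pool.Agent.Results.MP_6b2d39_ag.FourthMultiplicity

open MvPolynomial Pool.Agent.TH167.SHDefs Pool.Agent.Q310.FP

theorem result (n : ℕ) (hn : 4 ≤ n) (d : ℕ) (w : Fin n → ℕ) :
    (∀ (d' : ℕ) (w' : Fin n → ℕ), Carries d w d' w' → Standard d' w' → ¬ Rem4 d' w' →
      ∃ F : MvPolynomial (Fin n × Fin 2) ℂ, F ≠ 0 ∧ ∀ P : Fin n → Fin 2 → ℂ,
        MvPolynomial.eval (fun ij : Fin n × Fin 2 => P ij.1 ij.2) F ≠ 0 →
          dimL P d w = max (virtdim d w) (-1)) ∧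
    ∃ F : MvPolynomial (Fin n × Fin 2) ℂ, F ≠ 0 ∧
      ∀ P : Fin n → Fin 2 → ℂ, MvPolynomial.eval (fun ij : Fin n × Fin 2 => P ij.1 ij.2) F ≠ 0 →
        (MinusOneSpecial P d w → Special P d w) ∧
        (Special P d w → MinusOneSpecial P d w ∨
          ∃ (d'' : ℕ) (w'' : Fin n → ℕ) (k : ℕ) (G : Fin k → MvPolynomial (Fin 3) ℂ)
            (e : Fin k → ℕ) (u : Fin k → Fin n → ℕ) (N : Fin k → ℕ) (d' : ℕ) (w' : Fin n → ℕ),
            Decomp P d w d'' w'' G e u N ∧
            Relation.ReflTransGen Quadratic (d'', w'') (d', w') ∧ Standard d' w' ∧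
            Special P d' w' ∧ Rem4 d' w') :=
  ⟨fun d' w' hc hs hR => (GE.orbit hn hc hs (((std_or4 hn) d' w' hs).resolve_right hR)).general,
    hh_rem hn (R := Rem4) (std_or4 hn) d w⟩

end Pool.Agent.Results.MP_6b2d39_ag.FourthMultiplicity
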