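import Pool.Agent.TH167.RD.ConvO

set_option autoImplicit false

/-!
# The Harbourne-Hirschowitz conjecture for systems of large superabundance

General points of the complex projective plane, the system `L` of the curves of degree `d` with
multiplicities at least `m i` at these points, and `ε S = ∑ (m i - 2)⁺`, the sum over the indices
outside a set `S` of at most nine indices.

* If at most nine of the `m i` are at least `8` and `dim L ≥ ε S`, `dim L > vdim L + ε S` for some
  such `S`, then `L` is `(-1)`-special. (If at most nine of the `m i` are larger than `2`, then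
  `ε S = 0` for a suitable `S`, and this says that all special systems are `(-1)`-special.)
* For arbitrary multiplicities: a special system which is not `(-1)`-special has, after the removal
  of disjoint `(-1)`-curves, a residual system `L'` of the same dimension, nonnegative on all
  `(-1)`-curves, with `vdim L' < 0`, or with `vdim L' = vdim L` and all removed curves simple, and
  `dim L' ≤ vdim L' + ε' S` for all `S`, unless the double of a negative curve with ten or more
  multiplicities at least four is a fixed part.
-/

namespace Pool.Agent.Results.MP_6b2d39_ag.LargeSuperabundance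

open Pool.Agent.TH167 Pool.Agent.TH167.SHDefs

/-- The sum of `(m i - 2)⁺` over the indices outside `S`. -/
def excess {n : ℕ} (S : Finset (Fin n)) (m : Fin n → ℕ) : ℕ :=
  ∑ i, if i ∈ S then 0 else m i - 2

theorem excess_mono {n : ℕ} (S : Finset (Fin n)) {m m' : Fin n → ℕ} (h : ∀ i, m' i ≤ m i) :
    excess S m' ≤ excess S m := by
  unfold excess
  refine Finset.sum_le_sum fun i _ => ?_
  split_ifs
  · exact le_rfl
  · exact Nat.sub_le_sub_right (h i) 2

theorem nonneg_of_special {s : ℕ} {P : Fin s → Fin 2 → ℂ} {d : ℕ} {w : Fin s → ℕ}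
    (h : Special P d w) : 0 ≤ dimL P d w := by
  have h1 := (SH.special_iff P d w).1 ((SH.special_conv P d w).1 h)
  rw [SH.dimL_eq]
  omega

theorem result (r d : ℕ) (m : Fin (r + 4) → ℕ) :
    ∃ Q : MvPolynomial (Fin (r + 4) × Fin 2) ℂ, Q ≠ 0 ∧
      ∀ P : Fin (r + 4) → Fin 2 → ℂ,
        MvPolynomial.eval (fun ij : Fin (r + 4) × Fin 2 => P ij.1 ij.2) Q ≠ 0 →
        (MinusOneSpecial P d m → Special P d m) ∧
        ((Finset.univ.filter fun i => 8 ≤ m i).card ≤ 9 →
          ∀ S : Finset (Fin (r + 4)), S.card ≤ 9 → (excess S m : ℤ) ≤ dimL P d m →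
            virtdim d m + excess S m < dimL P d m → MinusOneSpecial P d m) ∧
        (Special P d m → MinusOneSpecial P d m ∨
          ∃ (d' : ℕ) (m' : Fin (r + 4) → ℕ) (k : ℕ) (G : Fin k → MvPolynomial (Fin 3) ℂ)
            (e : Fin k → ℕ) (u : Fin k → Fin (r + 4) → ℕ) (N : Fin k → ℕ),
            Decomp P d m d' m' G e u N ∧ dimL P d' m' = dimL P d m ∧
            (virtdim d' m' < 0 ∨ (virtdim d' m' = virtdim d m ∧ ∀ a, N a = 1)) ∧
            (∀ (H : MvPolynomial (Fin 3) ℂ) (f : ℕ) (v : Fin (r + 4) → ℕ),
              MinusOne P H f v → 0 ≤ inter d' m' f v) ∧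
            ((∀ S : Finset (Fin (r + 4)), S.card ≤ 9 →
                dimL P d' m' ≤ virtdim d' m' + excess S m') ∨
              ∃ (H : MvPolynomial (Fin 3) ℂ) (c : ℕ) (v : Fin (r + 4) → ℕ), Curve P H c v ∧
                inter c v c v < 0 ∧ inter d' m' c v < inter c v c v ∧
                10 ≤ (Finset.univ.filter fun i => 4 ≤ v i).card ∧ (∀ i, 2 * v i ≤ m' i) ∧
                ∀ f ∈ sys P d m, H ^ 2 ∣ f)) := by
  classical
  obtain ⟨Q, hQ, h⟩ := RD.final_open r d m
  refine ⟨Q, hQ, fun P hP => ⟨fun h1 => ?_, fun h8 S hS hge hlt => ?_, fun hsp => ?_⟩⟩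
  · exact (SH.special_conv P d m).2 ((SH.mspecial_conv P d m).1 h1).special
  · have h0 : 0 ≤ dimL P d m := le_trans (by positivity) hge
    obtain ⟨-, d', m', k, G, e, u, N, hD, -, hv, -, hcase⟩ := h P hP h0
    have hle : ∀ i, m' i ≤ m i := fun i => by
      have := hD.mult i
      omega
    have hmono := excess_mono S hle
    rcases hcase with hc | ⟨H, c, v, -, -, -, h10, hv2, -⟩
    · have h1 := hc S hS
      have h2 : dimL P d m ≤ virtdim d' m' + excess S m' := h1
      have h3 : ((excess S m' : ℕ) : ℤ) ≤ excess S m := by exact_mod_cast hmono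
      have h4 : 0 ≤ virtdim d' m' := by linarith
      have h5 : 0 < ∑ a, ((N a).choose 2 : ℤ) := by linarith
      have h6 : ∃ a, 2 ≤ N a := by
        by_contra hno
        push Not at hno
        have : ∑ a, ((N a).choose 2 : ℤ) = 0 := by
          refine Finset.sum_eq_zero fun a _ => ?_
          have := hno a
          rw [Nat.choose_eq_zero_of_lt this]
          rfl
        omega
      exact ⟨d', m', k, G, e, u, N, hD, h4, h6⟩
    · exfalso
      have h1 : (Finset.univ.filter fun i => 4 ≤ v i).card ≤
          (Finset.univ.filter fun i => 8 ≤ m i).card := by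
        refine Finset.card_le_card fun i hi => ?_
        rw [Finset.mem_filter] at hi ⊢
        have h1 := hv2 i
        have h2 := hle i
        refine ⟨hi.1, ?_⟩
        have := hi.2
        omega
      omega
  · have h0 : 0 ≤ dimL P d m := nonneg_of_special hsp
    obtain ⟨-, d', m', k, G, e, u, N, hD, hdim, hv, hnef, hcase⟩ := h P hP h0
    by_cases hneg : virtdim d' m' < 0
    · right
      refine ⟨d', m', k, G, e, u, N, hD, hdim, Or.inl hneg, hnef, ?_⟩
      rw [hdim]
      exact hcase
    · by_cases h2 : ∃ a, 2 ≤ N a
      · exact Or.inl ⟨d', m', k, G, e, u, N, hD, by omega, h2⟩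
      · right
        push Not at h2
        have h1 : ∀ a, N a = 1 := fun a => by
          have h3 := hD.pos a
          have h4 := h2 a
          omega
        refine ⟨d', m', k, G, e, u, N, hD, hdim, Or.inr ⟨?_, h1⟩, hnef, ?_⟩
        · rw [hv]
          have : ∑ a, ((N a).choose 2 : ℤ) = 0 := by
            refine Finset.sum_eq_zero fun a _ => ?_
            rw [h1 a]
            rfl
          omega
        · rw [hdim]
          exact hcase

end Pool.Agent.Results.MP_6b2d39_ag.LargeSuperabundance
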