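import Mathlib
import Pool.Agent.Q310.FP.Gap

set_option autoImplicit false

/-!
# The Harbourne-Hirschowitz conjecture: the uniform gap above the Nagata bound

If finitely many reflections in classes `H - E_i - E_j - E_k` carry `(d; w)` to a standard class
without `AboveGap`, then for general points the linear system `(d; w)` has the expected dimension. For
every `(d; w)` and general points: the linear system `(d; w)` is special if and only if it is
`(-1)`-special, unless its reduced form is a special standard class with `AboveGap`.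

`AboveGap d w` means, if `d > 0`, for every set `T` of at least ten points: if `T` has at least twelve
points or `3` does not divide `d`, then `∑_T w i + 1 - 3 / √|T| ≤ √|T| d`; and if the multiplicities on
`T` are `k` or `k + 1`, `k ≥ 1`, then `∑_T (w i) ^ 2 < d ^ 2`, except that equality is allowed if
`|T| = 10`, `k = 1` and `d` is `4` or `5`.
-/

namespace Pool.Agent.Results.MP_6b2d39_ag.UniformGapForms

open MvPolynomial Pool.Agent.TH167.SHDefs Pool.Agent.Q310.FP

theorem result (n : ℕ) (hn : 4 ≤ n) (d : ℕ) (w : Fin n → ℕ) :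
    (∀ (d' : ℕ) (w' : Fin n → ℕ), Carries d w d' w' → Standard d' w' → ¬ AboveGap d' w' →
      ∃ F : MvPolynomial (Fin n × Fin 2) ℂ, F ≠ 0 ∧ ∀ P : Fin n → Fin 2 → ℂ,
        MvPolynomial.eval (fun ij : Fin n × Fin 2 => P ij.1 ij.2) F ≠ 0 →
          dimL P d w = max (virtdim d w) (-1)) ∧
    ∃ F : MvPolynomial (Fin n × Fin 2) ℂ, F ≠ 0 ∧
      ∀ P : Fin n → Fin 2 → ℂ, MvPolynomial.eval (fun ij : Fin n × Fin 2 => P ij.1 ij.2) F ≠ 0 →
        (MinusOneSpecial P d w → Special P d w) ∧
        (Special P d w → MinusOneSpecial P d w ∨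
          ∃ (d'' : ℕ) (w'' : Fin n → ℕ) (k : ℕ) (G : Fin k → MvPolynomial (Fin 3) ℂ)
            (e : Fin k → ℕ) (u : Fin k → Fin n → ℕ) (N : Fin k → ℕ) (d' : ℕ) (w' : Fin n → ℕ),
            Decomp P d w d'' w'' G e u N ∧
            Relation.ReflTransGen Quadratic (d'', w'') (d', w') ∧ Standard d' w' ∧
            Special P d' w' ∧ AboveGap d' w') :=
  ⟨fun d' w' hc hs hR => (GE.orbit hn hc hs (((fun d w _ => gap_or d w) d' w' hs).resolve_right hR)).general,
    hh_rem hn (R := AboveGap) (fun d w _ => gap_or d w) d w⟩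

end Pool.Agent.Results.MP_6b2d39_ag.UniformGapForms
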